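import Pool.Agent.Helper98.EY.StmtsB

/-!
# MAINN2: cutoff for nestling and marginal nestling laws with a moment of order larger than one
-/

namespace Pool.Agent.Helper98.EX

open Finset MeasureTheory ProbabilityTheory Filter
open scoped Topology

section mainn2

variable {N : ℕ}

theorem mainn2_left {η : Cfg N} {q : ℕ} (hq : q ≤ N)
    (h : ∀ i, i < q → occ η i = false) : ht η q = ht η 0 := by
  induction q with
  | zero => rfl
  | succ q ih =>
    have h1 := ih (by omega) (fun i hi => h i (by omega))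
    rw [← h1]
    exact ((not_occ_iff_ht η (by omega : q < N)).1 (h q (by omega))).symm

theorem mainn2_left' {η : Cfg N} {q : ℕ} (hq : q ≤ N) (h : ht η q = ht η 0) :
    ∀ i, i < q → occ η i = false := by
  intro i hi
  rw [not_occ_iff_ht η (by omega)]
  have h1 := ht_anti η (Nat.zero_le i)
  have h2 := ht_succ_le η i
  have h3 := ht_anti η (show i + 1 ≤ q from hi)
  omega

theorem mainn2_right {η : Cfg N} {q : ℕ}
    (h : ∀ i, q ≤ i → i < N → occ η i = true) : ht η q = N - q := by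
  rcases le_or_gt N q with hq | hq
  · rw [ht_ge hq]; omega
  · have key : ∀ d, q + d ≤ N → ht η (N - d) = d := by
      intro d
      induction d with
      | zero => intro _; rw [ht_ge (by omega)]
      | succ d ih =>
        intro hd
        have e : N - (d + 1) + 1 = N - d := by omega
        rw [ht_succ _ (by omega : N - (d + 1) < N), e, ih (by omega),
          if_pos (h _ (by omega) (by omega))]
        omega
    have h1 := key (N - q) (by omega)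
    have e : N - (N - q) = q := by omega
    rwa [e] at h1

theorem mainn2_right' {η : Cfg N} {q : ℕ} (h : ht η q = N - q) :
    ∀ i, q ≤ i → i < N → occ η i = true := by
  intro i h1 h2
  have a1 := ht_le_sub η h1
  have a2 := ht_le η (i + 1)
  have a3 := ht_le_succ η i
  have a4 := ht_le η i
  rw [occ_iff_ht η h2]
  omega

/-- sorted states form an increasing set on the sector -/
theorem mainn2_inc (k q1 q2 : ℕ) (hq1 : q1 ≤ N) :
    Inc k (ind (sorted 0 q1 q2 N : Set (Cfg N))) := by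
  apply pr_Inc_ind
  rintro η ξ h1 h2 h3 ⟨ha, hb⟩
  refine ⟨?_, ?_⟩
  · intro i _ hi
    have e1 := mainn2_left hq1 (fun i hi => ha i (Nat.zero_le i) hi)
    have e2 := h3 q1
    have e3 := ht_anti ξ (Nat.zero_le q1)
    exact mainn2_left' hq1 (by omega) i hi
  · intro i hi hiN
    have e1 := mainn2_right hb
    have e2 := h3 q2
    have e3 := ht_le ξ q2
    exact mainn2_right' (by omega) i hi hiN

theorem mainn2_adm {w : ℕ → ℝ} (hw : ∀ x, 0 < w x ∧ w x ≤ 1) : Adm N (rE w) (lE w) := by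
  intro x _ _
  have h1 := hw (x - 1)
  have h2 := hw x
  unfold rE lE
  exact ⟨h1.1, h1.2, by linarith, by linarith⟩

/-- mass of the unsorted states under the stationary law -/
theorem mainn2_stat (hSTATTAIL : ST_STATTAIL) (hSTC : ST_STC) {k m0 : ℕ} {w : ℕ → ℝ}
    {π : Conf N k → ℝ} {e : ℝ} (hN : 1 ≤ N) (hk : k ≤ N) (hw : ∀ x, 0 < w x ∧ w x ≤ 1)
    (hπ : IsStatC w N k π) (hm : (N - k) + m0 ≤ N)
    (ht : tails N k (rE w) (modl N (lE w)) m0 ≤ e) :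
    ∑ η, extC π η * ind (sorted 0 (N - k - m0) (N - k + m0) N)ᶜ η ≤ e := by
  obtain ⟨_, _, h3⟩ := hSTC N k w hN hk hw
  have hstat := h3 π hπ
  have hadm : Adm N (rE w) (lE w) := mainn2_adm hw
  have hN0 : (0 : ℝ) < N := by exact_mod_cast hN
  have hpos : (0 : ℝ) < (N : ℝ) ^ (-100 : ℝ) := Real.rpow_pos_of_pos hN0 _
  have hle1 : (N : ℝ) ^ (-100 : ℝ) ≤ 1 :=
    Real.rpow_le_one_of_one_le_of_nonpos (by exact_mod_cast hN) (by norm_num)
  have hadm' : Adm N (rE w) (modl N (lE w)) := by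
    intro x h1 h2
    obtain ⟨a1, a2, a3, a4⟩ := hadm x h1 h2
    refine ⟨a1, a2, ?_, ?_⟩
    · exact le_max_of_le_left a3
    · exact max_le a4 hle1
  have hPos : Pos N (modl N (lE w)) := fun x _ _ => lt_of_lt_of_le hpos (le_max_right _ _)
  have := hSTATTAIL N k (rE w) (lE w) (modl N (lE w)) (extC π) (N - k - m0) (N - k + m0) hN hk hadm
    hadm' hPos (fun x _ _ => le_max_left _ _) hstat (by omega) (by omega) hm
  exact this.trans ht

end mainn2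

/-- powers of the logarithm are small -/
theorem mainn2_log (a b : ℝ) (n : ℕ) (hb : 0 < b) :
    ∀ᶠ N : ℕ in atTop, a * Real.log N ^ n ≤ (N : ℝ) ^ b := by
  have h1 := (isLittleO_log_rpow_rpow_atTop (n : ℝ) hb).bound (show 0 < 1 / (|a| + 1) by positivity)
  have h2 := tendsto_natCast_atTop_atTop (R := ℝ)
  filter_upwards [h2.eventually h1, eventually_ge_atTop 1] with N h3 h4
  have h5 : (0 : ℝ) ≤ (N : ℝ) ^ b := by positivity
  have hl : 0 ≤ Real.log N := Real.log_natCast_nonneg N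
  rw [Real.norm_eq_abs, Real.norm_eq_abs, abs_of_nonneg h5, Real.rpow_natCast,
    abs_of_nonneg (by positivity)] at h3
  have ha : 0 < |a| + 1 := by positivity
  calc a * Real.log N ^ n ≤ (|a| + 1) * Real.log N ^ n := by
        apply mul_le_mul_of_nonneg_right _ (by positivity)
        linarith [le_abs_self a]
    _ ≤ (|a| + 1) * (1 / (|a| + 1) * (N : ℝ) ^ b) := mul_le_mul_of_nonneg_left h3 ha.le
    _ = (N : ℝ) ^ b := by field_simp

/-- regime I: travel weight against the time -/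
theorem mainn2_c1 {M T as κ γ K L : ℝ} (hM : 1 ≤ M) (hγ : 0 < γ) (hγ1 : γ ≤ 1 / 100)
    (hK : 3 * M ^ (3 / 10 : ℝ) ≤ Real.sqrt (K * M)) (_hL0 : 0 ≤ L) (hL : 3 * L ^ 18 ≤ M ^ (1 / 5 : ℝ))
    (hT0 : 0 < T) (hT : K * M ≤ T) (hT2 : T ≤ M ^ (9 / 8 : ℝ)) (hκ : κ = max (M ^ γ) (L ^ 9 * T / M))
    (has : as ≤ M ^ (2 * γ) * (κ ^ 2 + M ^ (1 / 4 : ℝ))) : M ^ (2 * γ) * as ≤ Real.sqrt T := by
  have hM0 : 0 < M := by linarith
  obtain ⟨q, hq⟩ : ∃ q, q = Real.sqrt T := ⟨_, rfl⟩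
  have hq0 : 0 < q := by rw [hq]; positivity
  have hqT : q ^ 2 = T := by rw [hq]; exact Real.sq_sqrt hT0.le
  have h3 : 3 * M ^ (3 / 10 : ℝ) ≤ q := by
    rw [hq]; exact hK.trans (Real.sqrt_le_sqrt hT)
  have hκ2 : κ ^ 2 ≤ M ^ (2 * γ) + (L ^ 9 * T / M) ^ 2 := by
    have e1 : (M ^ γ) ^ 2 = M ^ (2 * γ) := by
      rw [← Real.rpow_natCast, ← Real.rpow_mul hM0.le]; norm_num; ring_nf
    rcases le_total (M ^ γ) (L ^ 9 * T / M) with h | h
    · rw [hκ, max_eq_right h]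
      have : 0 < M ^ (2 * γ) := Real.rpow_pos_of_pos hM0 _
      linarith
    · rw [hκ, max_eq_left h, e1]
      have := sq_nonneg (L ^ 9 * T / M)
      linarith
  have hp2 : 0 < M ^ (2 * γ) := Real.rpow_pos_of_pos hM0 _
  have step1 : M ^ (2 * γ) * as ≤ M ^ (2 * γ) * (M ^ (2 * γ) *
      (M ^ (2 * γ) + (L ^ 9 * T / M) ^ 2 + M ^ (1 / 4 : ℝ))) := by
    refine mul_le_mul_of_nonneg_left (has.trans ?_) hp2.le
    exact mul_le_mul_of_nonneg_left (by linarith) hp2.le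
  have t1 : M ^ (2 * γ) * (M ^ (2 * γ) * M ^ (2 * γ)) ≤ M ^ (3 / 10 : ℝ) := by
    rw [← Real.rpow_add hM0, ← Real.rpow_add hM0]
    exact Real.rpow_le_rpow_of_exponent_le hM (by linarith)
  have t2 : M ^ (2 * γ) * (M ^ (2 * γ) * M ^ (1 / 4 : ℝ)) ≤ M ^ (3 / 10 : ℝ) := by
    rw [← Real.rpow_add hM0, ← Real.rpow_add hM0]
    exact Real.rpow_le_rpow_of_exponent_le hM (by linarith)
  have hq3 : q ^ 3 ≤ M ^ (27 / 16 : ℝ) := by
    have h4 : q ≤ M ^ (9 / 16 : ℝ) := by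
      have h5 : Real.sqrt T ≤ Real.sqrt (M ^ (9 / 8 : ℝ)) := Real.sqrt_le_sqrt hT2
      rw [Real.sqrt_eq_rpow (M ^ (9 / 8 : ℝ)), ← Real.rpow_mul hM0.le, ← hq] at h5
      norm_num at h5
      exact h5
    have h6 := pow_le_pow_left₀ hq0.le h4 3
    rw [← Real.rpow_natCast (M ^ (9 / 16 : ℝ)), ← Real.rpow_mul hM0.le] at h6
    norm_num at h6
    exact h6
  have t3 : M ^ (2 * γ) * (M ^ (2 * γ) * (L ^ 9 * T / M) ^ 2) ≤ q / 3 := by
    have e1 : (L ^ 9 * T / M) ^ 2 = L ^ 18 * (q * (q ^ 3 / M ^ 2)) := by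
      rw [← hqT]; field_simp
    have e2 : q ^ 3 / M ^ 2 ≤ M ^ (-(5 / 16) : ℝ) := by
      rw [div_le_iff₀ (by positivity)]
      refine hq3.trans (le_of_eq ?_)
      rw [← Real.rpow_natCast M 2, ← Real.rpow_add hM0]; norm_num
    have e3 : L ^ 18 ≤ M ^ (1 / 5 : ℝ) / 3 := by linarith
    calc M ^ (2 * γ) * (M ^ (2 * γ) * (L ^ 9 * T / M) ^ 2)
        = M ^ (2 * γ) * M ^ (2 * γ) * (L ^ 18 * (q ^ 3 / M ^ 2)) * q := by rw [e1]; ring
      _ ≤ M ^ (2 * γ) * M ^ (2 * γ) * (M ^ (1 / 5 : ℝ) / 3 * M ^ (-(5 / 16) : ℝ)) * q := by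
          apply mul_le_mul_of_nonneg_right _ hq0.le
          apply mul_le_mul_of_nonneg_left _ (by positivity)
          exact mul_le_mul e3 e2 (by positivity) (by positivity)
      _ = (M ^ (2 * γ) * (M ^ (2 * γ) * (M ^ (1 / 5 : ℝ) * M ^ (-(5 / 16) : ℝ)))) * (q / 3) := by ring
      _ ≤ 1 * (q / 3) := by
          apply mul_le_mul_of_nonneg_right _ (by positivity)
          rw [← Real.rpow_add hM0, ← Real.rpow_add hM0, ← Real.rpow_add hM0]
          exact Real.rpow_le_one_of_one_le_of_nonpos hM (by linarith)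
      _ = q / 3 := one_mul _
  rw [← hq]
  have e9 : M ^ (2 * γ) * (M ^ (2 * γ) * (M ^ (2 * γ) + (L ^ 9 * T / M) ^ 2 + M ^ (1 / 4 : ℝ))) =
      M ^ (2 * γ) * (M ^ (2 * γ) * M ^ (2 * γ)) + M ^ (2 * γ) * (M ^ (2 * γ) * (L ^ 9 * T / M) ^ 2) +
      M ^ (2 * γ) * (M ^ (2 * γ) * M ^ (1 / 4 : ℝ)) := by ring
  rw [e9] at step1
  linarith

/-- regime II -/
theorem mainn2_c2 {M T as κ γ s L : ℝ} (hM : 1 ≤ M) (hγ : 0 < γ) (hγ1 : γ ≤ 1 / 100)
    (hγs : 10 * γ ≤ 1 - 1 / s) (hL0 : 1 ≤ L) (hL : 2 * L ^ 14 ≤ M ^ (1 / 5 : ℝ))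
    (hT0 : 0 < T) (hT2 : M ^ (9 / 8 : ℝ) ≤ T) (hκ : κ = L ^ 9 * T / M) (has0 : 0 < as)
    (has1 : as ≤ M ^ (1 / s + 3 * γ))
    (has : as ≤ M ^ (2 * γ) * (κ ^ 2 + M ^ (1 / 4 : ℝ))) : M ^ (1 + 2 * γ) * as ≤ T ^ (3 / 2 : ℝ) := by
  have hM0 : 0 < M := by linarith
  have hκ0 : 0 < κ := by rw [hκ]; positivity
  have hκ8 : M ^ (1 / 8 : ℝ) ≤ κ := by
    rw [hκ, le_div_iff₀ hM0]
    calc M ^ (1 / 8 : ℝ) * M = M ^ (9 / 8 : ℝ) := by
          nth_rewrite 2 [← Real.rpow_one M]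
          rw [← Real.rpow_add hM0]; norm_num
      _ ≤ 1 * T := by linarith
      _ ≤ L ^ 9 * T := mul_le_mul_of_nonneg_right (one_le_pow₀ hL0) hT0.le
  have hκ4 : M ^ (1 / 4 : ℝ) ≤ κ ^ 2 := by
    have := pow_le_pow_left₀ (by positivity) hκ8 2
    rw [← Real.rpow_natCast (M ^ (1 / 8 : ℝ)), ← Real.rpow_mul hM0.le] at this
    norm_num at this
    exact this
  have hp2 : 0 < M ^ (2 * γ) := Real.rpow_pos_of_pos hM0 _
  have has2 : as ≤ M ^ (2 * γ) * (2 * κ ^ 2) := has.trans (mul_le_mul_of_nonneg_left (by linarith) hp2.le)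
  -- as = as^(1/4) as^(3/4)
  have e1 : as = as ^ (1 / 4 : ℝ) * as ^ (3 / 4 : ℝ) := by
    rw [← Real.rpow_add has0]; norm_num
  have e2 : as ^ (1 / 4 : ℝ) ≤ M ^ ((1 - 7 * γ) / 4) := by
    have h1 : as ≤ M ^ (1 - 7 * γ) := has1.trans (Real.rpow_le_rpow_of_exponent_le hM (by linarith))
    have h2 := Real.rpow_le_rpow has0.le h1 (by norm_num : (0:ℝ) ≤ 1 / 4)
    rw [← Real.rpow_mul hM0.le] at h2
    refine h2.trans (le_of_eq ?_)
    ring_nf
  have e3 : as ^ (3 / 4 : ℝ) ≤ M ^ (3 / 2 * γ) * (2 * (L ^ 14 * T ^ (3 / 2 : ℝ) * M ^ (-(3 / 2) : ℝ))) := by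
    have h2 := Real.rpow_le_rpow has0.le has2 (by norm_num : (0:ℝ) ≤ 3 / 4)
    rw [Real.mul_rpow hp2.le (by positivity), ← Real.rpow_mul hM0.le] at h2
    refine h2.trans ?_
    have h3 : M ^ (2 * γ * (3 / 4)) = M ^ (3 / 2 * γ) := by ring_nf
    rw [h3]
    refine mul_le_mul_of_nonneg_left ?_ (by positivity)
    rw [Real.mul_rpow (by norm_num) (by positivity)]
    have h4 : (2:ℝ) ^ (3 / 4 : ℝ) ≤ 2 := by
      calc (2:ℝ) ^ (3 / 4 : ℝ) ≤ (2:ℝ) ^ (1 : ℝ) := Real.rpow_le_rpow_of_exponent_le (by norm_num) (by norm_num)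
        _ = 2 := Real.rpow_one 2
    have h5 : (κ ^ 2) ^ (3 / 4 : ℝ) = κ ^ (3 / 2 : ℝ) := by
      rw [← Real.rpow_natCast κ 2, ← Real.rpow_mul hκ0.le]; norm_num
    have h6 : κ ^ (3 / 2 : ℝ) ≤ L ^ 14 * T ^ (3 / 2 : ℝ) * M ^ (-(3 / 2) : ℝ) := by
      rw [hκ, div_eq_mul_inv, Real.mul_rpow (by positivity) (by positivity),
        Real.mul_rpow (by positivity) (by positivity), Real.inv_rpow hM0.le, ← Real.rpow_neg hM0.le]
      apply mul_le_mul_of_nonneg_right _ (by positivity)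
      apply mul_le_mul_of_nonneg_right _ (by positivity)
      rw [← Real.rpow_natCast L 9, ← Real.rpow_mul (by linarith), ← Real.rpow_natCast L 14]
      exact Real.rpow_le_rpow_of_exponent_le hL0 (by norm_num)
    rw [h5]
    exact mul_le_mul h4 h6 (by positivity) (by norm_num)
  have hT3 : 0 < T ^ (3 / 2 : ℝ) := Real.rpow_pos_of_pos hT0 _
  calc M ^ (1 + 2 * γ) * as = M ^ (1 + 2 * γ) * (as ^ (1 / 4 : ℝ) * as ^ (3 / 4 : ℝ)) := by rw [← e1]
    _ ≤ M ^ (1 + 2 * γ) * (M ^ ((1 - 7 * γ) / 4) *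
        (M ^ (3 / 2 * γ) * (2 * (L ^ 14 * T ^ (3 / 2 : ℝ) * M ^ (-(3 / 2) : ℝ))))) := by
        refine mul_le_mul_of_nonneg_left (mul_le_mul e2 e3 (by positivity) (by positivity)) (by positivity)
    _ = (2 * L ^ 14) * (M ^ (1 + 2 * γ) * (M ^ ((1 - 7 * γ) / 4) * (M ^ (3 / 2 * γ) * M ^ (-(3 / 2) : ℝ)))) *
        T ^ (3 / 2 : ℝ) := by ring
    _ ≤ (M ^ (1 / 5 : ℝ)) * (M ^ (1 + 2 * γ) * (M ^ ((1 - 7 * γ) / 4) * (M ^ (3 / 2 * γ) * M ^ (-(3 / 2) : ℝ)))) *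
        T ^ (3 / 2 : ℝ) := by
        apply mul_le_mul_of_nonneg_right _ hT3.le
        exact mul_le_mul_of_nonneg_right hL (by positivity)
    _ ≤ 1 * T ^ (3 / 2 : ℝ) := by
        apply mul_le_mul_of_nonneg_right _ hT3.le
        rw [← Real.rpow_add hM0, ← Real.rpow_add hM0, ← Real.rpow_add hM0, ← Real.rpow_add hM0]
        exact Real.rpow_le_one_of_one_le_of_nonpos hM (by linarith)
    _ = T ^ (3 / 2 : ℝ) := one_mul _

/-- regime III -/
theorem mainn2_c3 {M T as γ s L : ℝ} (hM : 1 ≤ M) (hγ : 0 < γ)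
    (hγs : 10 * γ ≤ 1 - 1 / s) (hL0 : 1 ≤ L) (hL : L ^ 100 ≤ M ^ (5 * γ))
    (hT2 : M ^ 2 / L ^ 200 ≤ T) (has1 : as ≤ M ^ (1 / s + 3 * γ)) :
    M ^ (2 * γ) * as ≤ Real.sqrt T := by
  have hM0 : 0 < M := by linarith
  have h1 : M ^ (2 * γ) * as ≤ M / L ^ 100 := by
    rw [le_div_iff₀ (by positivity)]
    calc M ^ (2 * γ) * as * L ^ 100 ≤ M ^ (2 * γ) * M ^ (1 / s + 3 * γ) * M ^ (5 * γ) := by
          have e1 : M ^ (2 * γ) * as ≤ M ^ (2 * γ) * M ^ (1 / s + 3 * γ) :=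
            mul_le_mul_of_nonneg_left has1 (by positivity)
          exact mul_le_mul e1 hL (by positivity) (by positivity)
      _ = M ^ (2 * γ + (1 / s + 3 * γ) + 5 * γ) := by rw [← Real.rpow_add hM0, ← Real.rpow_add hM0]
      _ ≤ M ^ (1 : ℝ) := Real.rpow_le_rpow_of_exponent_le hM (by linarith)
      _ = M := Real.rpow_one M
  refine h1.trans ?_
  apply Real.le_sqrt_of_sq_le
  rw [div_pow, ← pow_mul]
  exact hT2

theorem st_MAINN2 (hENV2 : ST_ENV2) (hSTR : ST_STR) (hDT1 : ST_DT1) (hDT3 : ST_DT3) (hGS : ST_GS)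
    (hCAPLOW : ST_CAPLOW) (hCAPM : ST_CAPM) (hSTRLOW : ST_STRLOW) (hLOW : ST_LOW)
    (hSTATTAIL : ST_STATTAIL) (hSTC : ST_STC) (hCUT : ST_CUT) : ST_MAINN2 := by
  intro Ω _ P X s hX hs hMom hnest c ε δ ηp hc hε hε2 hδ hδ1 hηp
  have hs' : 0 < 1 - 1 / s := by
    have : 1 / s < 1 := by rw [div_lt_one (by linarith)]; exact hs
    linarith
  obtain ⟨γ, hγd⟩ : ∃ γ : ℝ, γ = min (1 / 100) ((1 - 1 / s) / 10) := ⟨_, rfl⟩
  have hγ : 0 < γ := by rw [hγd]; exact lt_min (by norm_num) (by positivity)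
  have hγ1 : γ ≤ 1 / 100 := by rw [hγd]; exact min_le_left _ _
  have hγs : 10 * γ ≤ 1 - 1 / s := by
    have : γ ≤ (1 - 1 / s) / 10 := by rw [hγd]; exact min_le_right _ _
    linarith
  have hγ1' : γ ≤ 1 := by linarith
  obtain ⟨η0, Cs, C1, c1, c2, m0, hη0, hη01, hCs, hC1, hc1, hc11, hc2, hc24, Ne, hE⟩ :=
    hENV2 Ω P X s hX hs.le hMom c (ηp / 2) (ε / 32) γ hc (by positivity) (by positivity) hγ hγ1'
  obtain ⟨K, Nd, hK, hD⟩ :=
    hDT1 ε δ γ η0 Cs C1 c1 m0 hε (by linarith) hδ hγ hγ1' hη0 hη01 hCs hC1 hc1 hc11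
  obtain ⟨N3, hD3⟩ :=
    hDT3 ε δ γ η0 Cs C1 c1 c m0 hε (by linarith) hδ hγ hγ1' hη0 hη01 hCs hC1 hc1 hc11 hc
  obtain ⟨cs, hcs, hS⟩ := hSTRLOW ε c c2 m0 hε hc hc2
  obtain ⟨m', hm', hm'K⟩ : ∃ m' : ℕ, 1 ≤ m' ∧ K ≤ cs * m' := by
    refine ⟨⌈K / cs⌉₊ + 1, by omega, ?_⟩
    have h1 := Nat.le_ceil (K / cs)
    rw [div_le_iff₀ hcs] at h1
    push_cast
    nlinarith
  obtain ⟨Ns, hS⟩ := hS m' hm'
  obtain ⟨Nr, hR⟩ := hSTR Ω P X hX hnest (ηp / 2) c2 m' (by positivity) hc2 hc24 hm'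
  obtain ⟨Ng, hG⟩ := hGS γ hγ hγ1'
  obtain ⟨Nt, hT⟩ := hCAPLOW ε c c2 m0 hε hc hc2
  obtain ⟨Nm, hM⟩ := hCAPM
  obtain ⟨cl, Nl, hcl, hL⟩ := hLOW ε c m0 hε hc
  obtain ⟨Nc, hC⟩ := hCUT ε δ cl hε hε2 hδ hδ1 hcl
  -- asymptotic inequalities
  have ev1 : ∀ᶠ N : ℕ in atTop, (N : ℝ) ^ (-5 : ℝ) ≤ ε / 8 := by
    have h1 : Tendsto (fun N : ℕ => (N : ℝ) ^ (-5 : ℝ)) atTop (𝓝 0) :=
      (tendsto_rpow_neg_atTop (by norm_num : (0 : ℝ) < 5)).comp tendsto_natCast_atTop_atTop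
    exact h1.eventually_le_const (by positivity)
  have ev2 : ∀ᶠ N : ℕ in atTop, 3 * (N : ℝ) ^ (3 / 10 : ℝ) ≤ Real.sqrt (K * N) := by
    have h1 : Tendsto (fun N : ℕ => (N : ℝ) ^ (1 / 5 : ℝ)) atTop atTop :=
      (tendsto_rpow_atTop (by norm_num : (0 : ℝ) < 1 / 5)).comp tendsto_natCast_atTop_atTop
    filter_upwards [h1.eventually_ge_atTop (3 / Real.sqrt K), eventually_ge_atTop 1] with N h2 h3
    have hN : (0 : ℝ) < N := by exact_mod_cast h3
    have hsK : 0 < Real.sqrt K := Real.sqrt_pos.mpr hK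
    rw [div_le_iff₀ hsK] at h2
    rw [Real.sqrt_mul hK.le, Real.sqrt_eq_rpow (N : ℝ)]
    have e1 : (N : ℝ) ^ (1 / 2 : ℝ) = (N : ℝ) ^ (1 / 5 : ℝ) * (N : ℝ) ^ (3 / 10 : ℝ) := by
      rw [← Real.rpow_add hN]; norm_num
    rw [e1]
    have := mul_le_mul_of_nonneg_right h2 (Real.rpow_nonneg hN.le (3 / 10 : ℝ))
    linarith
  have ev3 := mainn2_log 3 (1 / 5) 18 (by norm_num)
  have ev4 := mainn2_log 2 (1 / 5) 14 (by norm_num)
  have ev5 := mainn2_log 1 (5 * γ) 100 (by positivity)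
  obtain ⟨N1, hN1⟩ := eventually_atTop.1 (ev1.and (ev2.and (ev3.and (ev4.and (ev5.and
    ((eventually_ge_atTop 3).and
    ((eventually_ge_atTop Ne).and ((eventually_ge_atTop Nd).and ((eventually_ge_atTop Ns).and
    ((eventually_ge_atTop Nr).and ((eventually_ge_atTop Ng).and ((eventually_ge_atTop Nt).and
    ((eventually_ge_atTop Nl).and ((eventually_ge_atTop Nc).and ((eventually_ge_atTop N3).and
    (eventually_ge_atTop Nm))))))))))))))))
  refine ⟨N1, fun N k hN hk1 hk2 => ?_⟩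
  obtain ⟨i1, i2, i3, i4, i5, iN3, iNe, iNd, iNs, iNr, iNg, iNt, iNl, iNc, iN3', iNm⟩ := hN1 N hN
  have hNpos : (0 : ℝ) < N := by
    have : 0 < N := by omega
    exact_mod_cast this
  have hN1r : (1 : ℝ) ≤ N := by
    have : 1 ≤ N := by omega
    exact_mod_cast this
  have hlog1 : 1 ≤ Real.log N := by
    rw [Real.le_log_iff_exp_le hNpos]
    have : (3 : ℝ) ≤ N := by exact_mod_cast iN3
    exact (Real.exp_one_lt_d9.le.trans (by norm_num)).trans this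
  have hkN : k ≤ N := by
    have : (k : ℝ) ≤ N := by nlinarith
    exact_mod_cast this
  have hE' := hE N k iNe hk1 hk2
  have hR' := hR N iNr
  refine le_trans (measure_mono ?_) (le_trans (measure_union_le _ _)
    (le_trans (add_le_add hE' hR') ?_))
  swap
  · rw [← ENNReal.ofReal_add (by positivity) (by positivity)]
    exact ENNReal.ofReal_le_ofReal (by linarith)
  intro ω hω
  by_contra hcon
  rw [Set.mem_union, not_or] at hcon
  obtain ⟨hcon1, hcon2⟩ := hcon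
  simp only [Set.mem_ofPred_eq, not_not] at hcon1 hcon2
  obtain ⟨w, as, hGE, hge, hcen, hnear, has1, hcapb, hcapas⟩ := hcon1
  obtain ⟨A, hA1, hA2, hA3⟩ := hcon2
  obtain ⟨π, hπ, hbad⟩ := hω
  apply hbad
  have hw : ∀ x, 0 < EE X ω x ∧ EE X ω x ≤ 1 := fun x => hX.rng x ω
  have hadm := hGE.adm
  obtain ⟨_, hGt, _, _⟩ := hG N k (rE (EE X ω)) (lE (EE X ω)) w m0 η0 as Cs C1 c1 (ε / 32) iNg hη0
    hGE
  have hm0 : (N - k) + m0 ≤ N := by
    have h1 := hGE.m0w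
    have h2 := hGE.hB
    omega
  refine hC N k (EE X ω) π (sorted 0 (N - k - m0) (N - k + m0) N) iNc hkN hw hπ
    (mainn2_inc k _ _ (by omega)) ?_ ?_
  · exact mainn2_stat hSTATTAIL hSTC (by omega) hkN hw hπ hm0 (hGt.trans (by linarith))
  · intro m1 hm1
    have low1 := hL N k _ _ m1 iNl hk1 hk2 hadm hm1
    refine ⟨low1, ?_⟩
    have low2 := hS N k _ _ m1 A iNs hk1 hk2 hadm hA1 hA2 hA3 hm1
    obtain ⟨T, hTd⟩ : ∃ T : ℝ, T = (m1 : ℝ) / (2 * N) := ⟨_, rfl⟩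
    have hKN : K * N ≤ T := by
      rw [hTd]
      refine le_trans ?_ low2
      exact mul_le_mul_of_nonneg_right hm'K hNpos.le
    have hT0 : 0 < T := lt_of_lt_of_le (by positivity) hKN
    have has0 : 0 < as := lt_of_lt_of_le one_pos hGE.as1
    obtain ⟨κ, hκd⟩ : ∃ κ : ℝ, κ = max ((N : ℝ) ^ γ) (Real.log N ^ 9 * T / N) := ⟨_, rfl⟩
    have hcapl : CAPc N (rE (EE X ω)) (lE (EE X ω)) κ := by
      refine hcapb κ (by rw [hκd]; exact le_max_left _ _) ?_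
      intro A' B' hA' hAB' hB' hB''
      obtain ⟨y, hy1, hy2, hy3, hy4⟩ := hT N k _ _ m1 A' B' iNt hk1 hk2 hadm hA' hAB' hB' hB'' hm1
      rw [← hTd] at hy3 hy4
      have hle : Real.log N ^ 9 * T / N ≤ κ := by rw [hκd]; exact le_max_right _ _
      exact ⟨y, hy1, hy2, hy3.trans hle, hy4.trans hle⟩
    have has2 := hcapas κ hcapl
    rcases le_or_gt T ((N : ℝ) ^ (9 / 8 : ℝ)) with hc1' | hc1'
    · refine hD N k _ _ w m1 as iNd hGE hm1 (by rw [← hTd]; exact hKN) ?_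
      rw [← hTd]
      exact mainn2_c1 hN1r hγ hγ1 i2 (by linarith) i3 hT0 hKN hc1' hκd has2
    · rcases le_or_gt ((N : ℝ) ^ 2 / Real.log N ^ 200) T with hc2' | hc2'
      · refine hD N k _ _ w m1 as iNd hGE hm1 (by rw [← hTd]; exact hKN) ?_
        rw [← hTd]
        exact mainn2_c3 hN1r hγ hγs hlog1 (by linarith) hc2' has1
      · have hκ8 : (N : ℝ) ^ (1 / 8 : ℝ) ≤ Real.log N ^ 9 * T / N := by
          rw [le_div_iff₀ hNpos]
          calc (N : ℝ) ^ (1 / 8 : ℝ) * N = (N : ℝ) ^ (9 / 8 : ℝ) := by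
                nth_rewrite 2 [← Real.rpow_one (N : ℝ)]
                rw [← Real.rpow_add hNpos]; norm_num
            _ ≤ 1 * T := by linarith
            _ ≤ Real.log N ^ 9 * T := mul_le_mul_of_nonneg_right (one_le_pow₀ hlog1) hT0.le
        have hκe : κ = Real.log N ^ 9 * T / N := by
          rw [hκd]
          apply max_eq_right
          exact (Real.rpow_le_rpow_of_exponent_le hN1r (by linarith)).trans hκ8
        have hκ1 : 1 ≤ κ := by
          rw [hκe]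
          exact (Real.one_le_rpow hN1r (by norm_num)).trans hκ8
        obtain ⟨-, hM2, hM3⟩ := hM N (rE (EE X ω)) (lE (EE X ω)) iNm hadm hGE.rlow2 hGE.rub
        have hcapm : CAPc N (rE (EE X ω)) (modl N (lE (EE X ω))) (κ + 1) := by
          intro A' B' h1 h2 h3 h4
          obtain ⟨y, hy1, hy2, hy3, hy4⟩ := hcapl A' B' h1 h2 h3 h4
          refine ⟨y, hy1, hy2, ?_, ?_⟩
          · exact (hM2 y B' hy2 h3).2.trans (by linarith)
          · exact (hM3 A' y h1 hy1 (by omega)).2.trans (by linarith)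
        refine hD3 N k (rE (EE X ω)) (lE (EE X ω)) w m1 as (κ + 1) iN3' hk1 hk2 hGE hge hcen hnear hcapm ?_
          hm1 ?_ ?_ ?_
        · rw [← hTd]
          have : 2 * Real.log N ^ 9 * T / N = 2 * κ := by rw [hκe]; ring
          rw [this]; linarith
        · rw [← hTd]; exact hc1'.le
        · rw [← hTd]; exact hc2'.le
        · rw [← hTd]
          exact mainn2_c2 hN1r hγ hγ1 hγs hlog1 i4 hT0 hc1'.le hκe has0 has1 has2

end Pool.Agent.Helper98.EX
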